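import Pool.Agent.H99.KPO.NCT

/-!
# Cells near a zero set with large gradient (row XGC)

A function on the unit cube is given, with its partial derivatives. The number of dyadic cells of
side `2 ^ (-j)` which contain a point where the function has size at most `A 2 ^ (-j)` and some
partial derivative has size at least `c`, is at most `C 2 ^ ((k - 1) j)`.
-/

set_option autoImplicit false

namespace Pool.QQ

open Finset Real

/-- Counting cells along one direction. -/
theorem cells_dir {k : ℕ} (i : Fin k) (N M : ℕ) (Z : Finset (Fin k → ℤ))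
    (hZ : ∀ n ∈ Z, ∀ l, 0 ≤ n l ∧ n l ≤ N)
    (hM : ∀ a : Fin k → ℤ, (Z.filter (fun n => Function.update n i 0 = a)).card ≤ M) :
    Z.card ≤ M * (N + 1) ^ (k - 1) := by
  classical
  have h1 := Finset.card_le_mul_card_image (f := fun n : Fin k → ℤ => Function.update n i 0) Z M
    (fun a _ => hM a)
  refine h1.trans (Nat.mul_le_mul_left _ ?_)
  have h2 : Z.image (fun n : Fin k → ℤ => Function.update n i 0) ⊆
      Fintype.piFinset (fun l => if l = i then ({0} : Finset ℤ) else Finset.Icc 0 (N : ℤ)) := by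
    intro a ha
    obtain ⟨n, hn, rfl⟩ := Finset.mem_image.1 ha
    rw [Fintype.mem_piFinset]
    intro l
    by_cases h : l = i
    · subst h
      simp
    · rw [if_neg h, Function.update_of_ne h, Finset.mem_Icc]
      exact hZ n hn l
  refine (Finset.card_le_card h2).trans ?_
  rw [Fintype.card_piFinset]
  have h3 : ∀ l : Fin k, (if l = i then ({0} : Finset ℤ) else Finset.Icc 0 (N : ℤ)).card =
      if l = i then 1 else N + 1 := by
    intro l
    split_ifs
    · simp
    · rw [Int.card_Icc]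
      omega
  rw [Finset.prod_congr rfl (fun l _ => h3 l), Finset.prod_ite, Finset.prod_const_one, one_mul,
    Finset.prod_const]
  refine le_of_eq ?_
  congr 1
  have h4 : (Finset.univ.filter (fun l : Fin k => ¬ l = i)) = Finset.univ.erase i := by
    ext l
    simp
  rw [h4, Finset.card_erase_of_mem (Finset.mem_univ i), Finset.card_univ, Fintype.card_fin]

/-- All cells of the cube. -/
theorem cells_all {k : ℕ} (N : ℕ) (Z : Finset (Fin k → ℤ))
    (hZ : ∀ n ∈ Z, ∀ l, 0 ≤ n l ∧ n l ≤ N) : Z.card ≤ (N + 1) ^ k := by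
  classical
  have h2 : Z ⊆ Fintype.piFinset (fun _ : Fin k => Finset.Icc 0 (N : ℤ)) := by
    intro n hn
    rw [Fintype.mem_piFinset]
    intro l
    rw [Finset.mem_Icc]
    exact hZ n hn l
  refine (Finset.card_le_card h2).trans ?_
  rw [Fintype.card_piFinset, Finset.prod_const, Finset.card_univ, Fintype.card_fin, Int.card_Icc]
  refine le_of_eq ?_
  congr 1

/-- Integers near finitely many real points. -/
theorem ints_near (S : Finset ℝ) (u B : ℝ) (F : Finset ℤ)
    (hF : ∀ n ∈ F, ∃ s ∈ S, |(n : ℝ) - u * s| ≤ B) : F.card ≤ S.card * (⌈2 * B⌉₊ + 1) := by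
  classical
  have h1 : F ⊆ S.biUnion (fun s => Finset.Icc ⌈u * s - B⌉ ⌊u * s + B⌋) := by
    intro n hn
    obtain ⟨s, hs, h⟩ := hF n hn
    rw [abs_le] at h
    rw [Finset.mem_biUnion]
    refine ⟨s, hs, Finset.mem_Icc.2 ⟨?_, ?_⟩⟩
    · rw [Int.ceil_le]
      linarith
    · rw [Int.le_floor]
      linarith only [h]
  refine (Finset.card_le_card h1).trans ?_
  refine Finset.card_biUnion_le_card_mul _ _ _ fun s _ => ?_
  rw [Int.card_Icc]
  have h2 : ((⌊u * s + B⌋ + 1 - ⌈u * s - B⌉ : ℤ) : ℝ) ≤ (2 * B) + 1 := by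
    push_cast
    have h3 := Int.floor_le (u * s + B)
    have h4 := Int.le_ceil (u * s - B)
    linarith only [h3, h4]
  have h5 : (2 * B) + 1 ≤ ((⌈2 * B⌉₊ + 1 : ℕ) : ℤ) := by
    have h6 := Nat.le_ceil (2 * B)
    push_cast
    linarith only [h6]
  have h7 : (⌊u * s + B⌋ + 1 - ⌈u * s - B⌉ : ℤ) ≤ ((⌈2 * B⌉₊ + 1 : ℕ) : ℤ) := by
    exact_mod_cast h2.trans h5
  exact Int.toNat_le.2 h7

/-- **Row XGC.** Counting cells near a zero set with large gradient. -/
theorem xgc (k D : ℕ) (A c Λ L : ℝ) (hk : 0 < k) (hA : 0 ≤ A) (hc : 0 < c) (hΛ : 0 ≤ Λ)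
    (hL : 0 ≤ L) : ∃ C : ℝ, 0 ≤ C ∧ ∀ (j : ℕ) (f : (Fin k → ℝ) → ℝ)
      (g : Fin k → (Fin k → ℝ) → ℝ),
      (∀ x y, (∀ l, 0 ≤ x l ∧ x l ≤ 1) → (∀ l, 0 ≤ y l ∧ y l ≤ 1) →
        ∀ r, (∀ l, |x l - y l| ≤ r) → |f x - f y| ≤ Λ * r ∧ ∀ i, |g i x - g i y| ≤ Λ * r) →
      (∀ i x, (∀ l, 0 ≤ x l ∧ x l ≤ 1) → ∀ a : ℝ, 0 ≤ a → ∃ S : Finset ℝ, S.card ≤ D ∧
        ∀ t : ℝ, 0 ≤ t → t ≤ 1 → |f (Function.update x i t)| ≤ a →
          c / 2 ≤ |g i (Function.update x i t)| → ∃ s ∈ S, |t - s| ≤ L * a) →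
      ∀ Z : Finset (Fin k → ℤ), (∀ n ∈ Z, ∃ x, (∀ l, 0 ≤ x l ∧ x l ≤ 1) ∧
        (∀ l, n l = ⌊(2 : ℝ) ^ j * x l⌋) ∧ |f x| ≤ A * ((2 : ℝ) ^ j)⁻¹ ∧ ∃ i, c ≤ |g i x|) →
      (Z.card : ℝ) ≤ C * ((2 : ℝ) ^ j) ^ (k - 1) := by
  classical
  set B : ℝ := L * (A + Λ) + 1 with hB
  have hB0 : 0 ≤ B := by positivity
  set M : ℕ := D * (⌈2 * B⌉₊ + 1) with hM
  refine ⟨k * M * 2 ^ (k - 1) + 2 ^ k * (2 * Λ / c), by positivity, ?_⟩
  intro j f g hlip hS Z hZ
  set N : ℕ := 2 ^ j with hN
  have hNR : (N : ℝ) = (2 : ℝ) ^ j := by rw [hN]; push_cast; ring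
  have hN1 : (1 : ℝ) ≤ N := by rw [hNR]; exact one_le_pow₀ (by norm_num)
  have hNpos : (0 : ℝ) < N := by linarith only [hN1]
  have hbox : ∀ n ∈ Z, ∀ l, 0 ≤ n l ∧ n l ≤ N := by
    intro n hn l
    obtain ⟨x, hx, hn', -, -⟩ := hZ n hn
    rw [hn' l, ← hNR]
    constructor
    · exact Int.floor_nonneg.2 (mul_nonneg hNpos.le (hx l).1)
    · have h1 : ((⌊(N : ℝ) * x l⌋ : ℤ) : ℝ) ≤ ((N : ℤ) : ℝ) := by
        refine (Int.floor_le _).trans ?_
        push_cast
        nlinarith only [hx, (hx l).2]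
      exact_mod_cast h1
  rw [← hNR]
  rcases le_or_gt (Λ * (N : ℝ)⁻¹) (c / 2) with hcase | hcase
  · -- fine cells
    have hmain : ∀ i : Fin k, (Z.filter (fun n => ∃ x, (∀ l, 0 ≤ x l ∧ x l ≤ 1) ∧
        (∀ l, n l = ⌊(N : ℝ) * x l⌋) ∧ |f x| ≤ A * (N : ℝ)⁻¹ ∧ c ≤ |g i x|)).card ≤
        M * (N + 1) ^ (k - 1) := by
      intro i
      refine cells_dir i N M _ (fun n hn => hbox n (Finset.mem_filter.1 hn).1) ?_
      intro a
      rw [Finset.filter_filter]
      rcases (Finset.eq_empty_or_nonempty (Z.filter (fun n => (∃ x, (∀ l, 0 ≤ x l ∧ x l ≤ 1) ∧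
        (∀ l, n l = ⌊(N : ℝ) * x l⌋) ∧ |f x| ≤ A * (N : ℝ)⁻¹ ∧ c ≤ |g i x|) ∧
        Function.update n i 0 = a))) with he | ⟨n₀, hn₀⟩
      · rw [he]; simp
      · -- the base point of the line
        set xb : Fin k → ℝ := fun l => (a l : ℝ) * (N : ℝ)⁻¹ with hxb
        have hn₀' := Finset.mem_filter.1 hn₀
        have hal : ∀ l, 0 ≤ a l ∧ a l ≤ N := by
          intro l
          rw [← hn₀'.2.2]
          by_cases h : l = i
          · subst h
            rw [Function.update_self]
            exact ⟨le_refl _, by positivity⟩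
          · rw [Function.update_of_ne h]
            exact hbox n₀ hn₀'.1 l
        have hxb01 : ∀ l, 0 ≤ xb l ∧ xb l ≤ 1 := by
          intro l
          have h1 : (0 : ℝ) ≤ a l := by exact_mod_cast (hal l).1
          have h2 : (a l : ℝ) ≤ N := by exact_mod_cast (hal l).2
          refine ⟨by positivity, ?_⟩
          change (a l : ℝ) * (N : ℝ)⁻¹ ≤ 1
          rw [mul_inv_le_iff₀ hNpos, one_mul]
          exact h2
        obtain ⟨S, hSD, hSS⟩ := hS i xb hxb01 ((A + Λ) * (N : ℝ)⁻¹) (by positivity)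
        set F := Z.filter (fun n => (∃ x, (∀ l, 0 ≤ x l ∧ x l ≤ 1) ∧
          (∀ l, n l = ⌊(N : ℝ) * x l⌋) ∧ |f x| ≤ A * (N : ℝ)⁻¹ ∧ c ≤ |g i x|) ∧
          Function.update n i 0 = a) with hFdef
        have hinj : Set.InjOn (fun n : Fin k → ℤ => n i) (F : Set (Fin k → ℤ)) := by
          intro n hn n' hn' h
          have e1 := (Finset.mem_filter.1 hn).2.2
          have e2 := (Finset.mem_filter.1 hn').2.2
          funext l
          by_cases hl : l = i
          · subst hl
            exact h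
          · have e3 := congrFun (e1.trans e2.symm) l
            rwa [Function.update_of_ne hl, Function.update_of_ne hl] at e3
        rw [← Finset.card_image_of_injOn hinj]
        refine (ints_near S N B _ ?_).trans (Nat.mul_le_mul_right _ hSD)
        intro m hm
        obtain ⟨n, hn, rfl⟩ := Finset.mem_image.1 hm
        obtain ⟨-, ⟨x, hx, hnx, hfx, hgx⟩, hna⟩ := Finset.mem_filter.1 hn
        have hdist : ∀ l, |x l - Function.update xb i (x i) l| ≤ (N : ℝ)⁻¹ := by
          intro l
          by_cases h : l = i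
          · subst h
            rw [Function.update_self, sub_self, abs_zero]
            positivity
          · rw [Function.update_of_ne h]
            have e1 : a l = n l := by
              rw [← hna, Function.update_of_ne h]
            have e2 : (n l : ℝ) ≤ N * x l := by
              rw [hnx l]
              exact Int.floor_le _
            have e3 : (N : ℝ) * x l < n l + 1 := by
              rw [hnx l]
              exact Int.lt_floor_add_one _
            change |x l - (a l : ℝ) * (N : ℝ)⁻¹| ≤ _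
            rw [e1]
            have e4 : x l - (n l : ℝ) * (N : ℝ)⁻¹ = ((N : ℝ) * x l - n l) * (N : ℝ)⁻¹ := by
              field_simp
            rw [e4, abs_mul, abs_of_nonneg (by linarith only [e2] : (0 : ℝ) ≤ (N : ℝ) * x l - n l),
              abs_of_pos (inv_pos.2 hNpos)]
            have e5 : (N : ℝ) * x l - n l ≤ 1 := by linarith only [e3]
            calc ((N : ℝ) * x l - n l) * (N : ℝ)⁻¹ ≤ 1 * (N : ℝ)⁻¹ :=
                  mul_le_mul_of_nonneg_right e5 (inv_pos.2 hNpos).le
              _ = (N : ℝ)⁻¹ := one_mul _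
        have hup : ∀ l, 0 ≤ Function.update xb i (x i) l ∧ Function.update xb i (x i) l ≤ 1 := by
          intro l
          by_cases h : l = i
          · subst h
            rw [Function.update_self]
            exact hx l
          · rw [Function.update_of_ne h]
            exact hxb01 l
        obtain ⟨h1, h2⟩ := hlip x (Function.update xb i (x i)) hx hup _ hdist
        have h3 : |f (Function.update xb i (x i))| ≤ (A + Λ) * (N : ℝ)⁻¹ := by
          have := abs_sub_abs_le_abs_sub (f (Function.update xb i (x i))) (f x)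
          rw [abs_sub_comm] at this
          rw [add_mul]
          linarith only [hfx, h1, this]
        have h4 : c / 2 ≤ |g i (Function.update xb i (x i))| := by
          have := abs_sub_abs_le_abs_sub (g i x) (g i (Function.update xb i (x i)))
          have h5 := h2 i
          linarith only [hcase, hgx, this, h5]
        obtain ⟨s, hs, h5⟩ := hSS (x i) (hx i).1 (hx i).2 h3 h4
        refine ⟨s, hs, ?_⟩
        have h6 : |(n i : ℝ) - N * x i| ≤ 1 := by
          have e2 : (n i : ℝ) ≤ N * x i := by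
            rw [hnx i]
            exact Int.floor_le _
          have e3 : (N : ℝ) * x i < n i + 1 := by
            rw [hnx i]
            exact Int.lt_floor_add_one _
          rw [abs_le]
          constructor <;> linarith
        have h7 : |(N : ℝ) * x i - N * s| ≤ L * (A + Λ) := by
          rw [← mul_sub, abs_mul, abs_of_pos hNpos]
          calc (N : ℝ) * |x i - s| ≤ N * (L * ((A + Λ) * (N : ℝ)⁻¹)) :=
                mul_le_mul_of_nonneg_left h5 hNpos.le
            _ = L * (A + Λ) := by field_simp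
        calc |(n i : ℝ) - N * s| = |((n i : ℝ) - N * x i) + ((N : ℝ) * x i - N * s)| := by
              congr 1; ring
          _ ≤ |(n i : ℝ) - N * x i| + |(N : ℝ) * x i - N * s| := abs_add_le _ _
          _ ≤ B := by rw [hB]; linarith only [h6, h7]
    have hcover : Z ⊆ (Finset.univ : Finset (Fin k)).biUnion (fun i =>
        Z.filter (fun n => ∃ x, (∀ l, 0 ≤ x l ∧ x l ≤ 1) ∧
        (∀ l, n l = ⌊(N : ℝ) * x l⌋) ∧ |f x| ≤ A * (N : ℝ)⁻¹ ∧ c ≤ |g i x|)) := by
      intro n hn
      obtain ⟨x, hx, hnx, hfx, i, hgx⟩ := hZ n hn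
      rw [Finset.mem_biUnion]
      refine ⟨i, Finset.mem_univ i, Finset.mem_filter.2 ⟨hn, x, hx, ?_, ?_, hgx⟩⟩
      · intro l; rw [hnx l, hNR]
      · rw [hNR]; exact hfx
    have hcard : Z.card ≤ k * (M * (N + 1) ^ (k - 1)) := by
      refine (Finset.card_le_card hcover).trans ?_
      refine (Finset.card_biUnion_le_card_mul _ _ _ (fun i _ => hmain i)).trans ?_
      rw [Finset.card_univ, Fintype.card_fin]
    have h1 : (Z.card : ℝ) ≤ k * (M * ((N : ℝ) + 1) ^ (k - 1)) := by exact_mod_cast hcard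
    have h2 : ((N : ℝ) + 1) ^ (k - 1) ≤ (2 * (N : ℝ)) ^ (k - 1) :=
      pow_le_pow_left₀ (by positivity) (by linarith only [hN1]) _
    rw [mul_pow] at h2
    have h3 : (k : ℝ) * (M * ((N : ℝ) + 1) ^ (k - 1)) ≤ k * M * 2 ^ (k - 1) * (N : ℝ) ^ (k - 1) := by
      have h4 : (0 : ℝ) ≤ (k : ℝ) * M := by positivity
      nlinarith only [h2, h4, mul_le_mul_of_nonneg_left h2 h4]
    have h5 : (0 : ℝ) ≤ 2 ^ k * (2 * Λ / c) * (N : ℝ) ^ (k - 1) := by positivity
    nlinarith only [h1, h3, h5]
  · -- coarse cells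
    have h1 : (Z.card : ℝ) ≤ ((N : ℝ) + 1) ^ k := by exact_mod_cast cells_all N Z hbox
    have h2 : ((N : ℝ) + 1) ^ k ≤ (2 * (N : ℝ)) ^ k :=
      pow_le_pow_left₀ (by positivity) (by linarith only [hN1]) _
    have h3 : (N : ℝ) ≤ 2 * Λ / c := by
      rw [le_div_iff₀ hc]
      have h4 : c / 2 * N < Λ := by
        calc c / 2 * N < Λ * (N : ℝ)⁻¹ * N := mul_lt_mul_of_pos_right hcase hNpos
          _ = Λ := by field_simp
      linarith only [h4]
    have h5 : (2 * (N : ℝ)) ^ k = 2 ^ k * (N * (N : ℝ) ^ (k - 1)) := by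
      rw [mul_pow, ← pow_succ']
      congr 2
      omega
    have h6 : (2 : ℝ) ^ k * (N * (N : ℝ) ^ (k - 1)) ≤
        2 ^ k * (2 * Λ / c) * (N : ℝ) ^ (k - 1) := by
      rw [mul_assoc]
      exact mul_le_mul_of_nonneg_left (mul_le_mul_of_nonneg_right h3 (by positivity))
        (by positivity)
    have h7 : (0 : ℝ) ≤ (k : ℝ) * M * 2 ^ (k - 1) * (N : ℝ) ^ (k - 1) := by positivity
    rw [add_mul]
    linarith only [h1, h2, h5, h6, h7]

/-- Restriction of a polynomial to a line parallel to an axis. -/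
theorem restrict_line {k : ℕ} (q : MvPolynomial (Fin k) ℝ) (i : Fin k) (x : Fin k → ℝ) :
    ∃ P : Polynomial ℝ, P.natDegree ≤ q.totalDegree ∧ ∀ t,
      P.eval t = MvPolynomial.eval (Function.update x i t) q ∧
      P.derivative.eval t = MvPolynomial.eval (Function.update x i t) (MvPolynomial.pderiv i q) := by
  classical
  set v : Fin k → Polynomial ℝ := fun l => if l = i then Polynomial.X else Polynomial.C (x l)
    with hv
  have hvt : ∀ (t : ℝ) (l : Fin k), (v l).eval t = Function.update x i t l := by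
    intro t l
    by_cases h : l = i
    · subst h
      simp [hv]
    · simp [hv, h]
  have hev : ∀ (r : MvPolynomial (Fin k) ℝ) (t : ℝ),
      (MvPolynomial.aeval v r).eval t = MvPolynomial.eval (Function.update x i t) r := by
    intro r t
    induction r using MvPolynomial.induction_on with
    | C a => simp
    | add p q hp hq => rw [map_add, Polynomial.eval_add, hp, hq, map_add]
    | mul_X p l hp =>
      rw [map_mul, Polynomial.eval_mul, hp, MvPolynomial.aeval_X, hvt, map_mul,
        MvPolynomial.eval_X]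
  have hder : ∀ r : MvPolynomial (Fin k) ℝ, Polynomial.derivative (MvPolynomial.aeval v r) =
      MvPolynomial.aeval v (MvPolynomial.pderiv i r) := by
    intro r
    induction r using MvPolynomial.induction_on with
    | C a => simp
    | add p q hp hq => rw [map_add, Polynomial.derivative_add, hp, hq, map_add, map_add]
    | mul_X p l hp =>
      rw [map_mul, Polynomial.derivative_mul, hp, MvPolynomial.aeval_X, Derivation.leibniz]
      by_cases h : l = i
      · subst h
        rw [MvPolynomial.pderiv_X_self]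
        simp only [hv, if_true, smul_eq_mul, map_add, map_mul, MvPolynomial.aeval_X,
          Polynomial.derivative_X, mul_one]
        ring
      · rw [MvPolynomial.pderiv_X_of_ne h]
        simp only [hv, h, if_false, smul_eq_mul, map_mul, MvPolynomial.aeval_X,
          Polynomial.derivative_C, mul_zero, add_zero, zero_add]
        ring
  refine ⟨MvPolynomial.aeval v q, ?_, fun t => ⟨hev q t, ?_⟩⟩
  · rw [MvPolynomial.aeval_def, MvPolynomial.eval₂_eq]
    refine Polynomial.natDegree_sum_le_of_forall_le _ _ fun m hm => ?_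
    refine (Polynomial.natDegree_mul_le).trans ?_
    have h1 : (algebraMap ℝ (Polynomial ℝ) (MvPolynomial.coeff m q)).natDegree = 0 := by
      rw [Polynomial.algebraMap_apply]
      exact Polynomial.natDegree_C _
    rw [h1, zero_add]
    refine (Polynomial.natDegree_prod_le _ _).trans ?_
    have h2 : ∀ l ∈ m.support, (v l ^ m l).natDegree ≤ m l := by
      intro l _
      refine (Polynomial.natDegree_pow_le).trans ?_
      have h3 : (v l).natDegree ≤ 1 := by
        by_cases h : l = i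
        · simp [hv, h]
        · simp [hv, h]
      nlinarith only [h3]
    refine (Finset.sum_le_sum h2).trans ?_
    exact MvPolynomial.le_totalDegree hm
  · rw [hder q]
    exact hev _ t

/-- The hypothesis on lines of `xgc` for polynomials. -/
theorem centers_poly {k : ℕ} (q : MvPolynomial (Fin k) ℝ) (D : ℕ) (hD : q.totalDegree ≤ D)
    (c : ℝ) (hc : 0 < c) (i : Fin k) (x : Fin k → ℝ) (a : ℝ) (ha : 0 ≤ a) :
    ∃ S : Finset ℝ, S.card ≤ D ∧ ∀ t : ℝ, |MvPolynomial.eval (Function.update x i t) q| ≤ a →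
      c / 2 ≤ |MvPolynomial.eval (Function.update x i t) (MvPolynomial.pderiv i q)| →
        ∃ s ∈ S, |t - s| ≤ 2 * D / c * a := by
  obtain ⟨P, hP, hPe⟩ := restrict_line q i x
  obtain ⟨S, hS, h⟩ := Pool.KPO.nct P D (hP.trans hD)
  refine ⟨S, hS, fun t h1 h2 => ?_⟩
  by_contra hcon
  push Not at hcon
  rw [← (hPe t).1] at h1
  rw [← (hPe t).2] at h2
  have hd : (0 : ℝ) < c / 2 := by positivity
  by_cases hSe : S = ∅
  · -- no centre: the polynomial has no large derivative
    have h3 : ∀ r : ℝ, 0 < r → c / 2 ≤ D / r * a := by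
      intro r hr
      have h4 := (h t t r 0 hr le_rfl (by rw [hSe]; simp)).2
      exact h2.trans (h4.trans (mul_le_mul_of_nonneg_left h1 (by positivity)))
    have h5 := h3 (4 * (D * a + 1) / c) (by positivity)
    have h6 : D / (4 * (D * a + 1) / c) * a = (D * a) * c / (4 * (D * a + 1)) := by
      field_simp
    rw [h6, le_div_iff₀ (by positivity)] at h5
    have h7 : (0 : ℝ) ≤ D * a := by positivity
    nlinarith only [hc, h5, h7]
  · -- the smallest distance
    have hne : S.Nonempty := Finset.nonempty_iff_ne_empty.2 hSe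
    obtain ⟨s₀, hs₀, hmin⟩ := S.exists_min_image (fun s => |t - s|) hne
    set r := |t - s₀| with hr
    have hr0 : 2 * D / c * a < r := hcon s₀ hs₀
    have hrpos : 0 < r := lt_of_le_of_lt (by positivity) hr0
    have h4 := (h t t r 0 hrpos le_rfl (fun s hs => hmin s hs)).2
    have h5 : c / 2 ≤ D / r * a :=
      h2.trans (h4.trans (mul_le_mul_of_nonneg_left h1 (by positivity)))
    rw [div_mul_eq_mul_div, le_div_iff₀ hrpos] at h5
    rw [div_mul_eq_mul_div, div_lt_iff₀ hc] at hr0
    nlinarith only [hr0, h5]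

/-- The hypothesis on lines of `xgc` when the derivative is large on few intervals. -/
theorem centers_intervals (M : ℕ) (c : ℝ) (hc : 0 < c) (f g : ℝ → ℝ)
    (hd : ∀ t : ℝ, 0 ≤ t → t ≤ 1 → HasDerivAt f (g t) t) (I : Fin M → Set ℝ)
    (hI : ∀ m, (I m).OrdConnected) (hI01 : ∀ m, I m ⊆ Set.Icc 0 1)
    (hsg : ∀ m, (∀ t ∈ I m, c / 2 ≤ g t) ∨ (∀ t ∈ I m, g t ≤ -(c / 2)))
    (hcov : ∀ t : ℝ, 0 ≤ t → t ≤ 1 → c / 2 ≤ |g t| → ∃ m, t ∈ I m) (a : ℝ) :
    ∃ S : Finset ℝ, S.card ≤ M ∧ ∀ t : ℝ, 0 ≤ t → t ≤ 1 → |f t| ≤ a → c / 2 ≤ |g t| →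
      ∃ s ∈ S, |t - s| ≤ 4 / c * a := by
  classical
  have key : ∀ m, ∀ s ∈ I m, ∀ t ∈ I m, |f s| ≤ a → |f t| ≤ a → |t - s| ≤ 4 / c * a := by
    intro m
    have hlt : ∀ s ∈ I m, ∀ t ∈ I m, |f s| ≤ a → |f t| ≤ a → s < t → t - s ≤ 4 / c * a := by
      intro s hs t ht hfs hft hst
      have hsub : Set.Icc s t ⊆ I m := (hI m).out hs ht
      have hcont : ContinuousOn f (Set.Icc s t) := fun z hz =>
        (hd z (hI01 m (hsub hz)).1 (hI01 m (hsub hz)).2).continuousAt.continuousWithinAt
      obtain ⟨z, hz, hzd⟩ := exists_hasDerivAt_eq_slope f g hst hcont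
        (fun z hz => hd z (hI01 m (hsub ⟨hz.1.le, hz.2.le⟩)).1
          (hI01 m (hsub ⟨hz.1.le, hz.2.le⟩)).2)
      have hgz : c / 2 ≤ |g z| := by
        rcases hsg m with h | h
        · exact (h z (hsub ⟨hz.1.le, hz.2.le⟩)).trans (le_abs_self _)
        · have h1 := h z (hsub ⟨hz.1.le, hz.2.le⟩)
          have h2 := neg_le_abs (g z)
          linarith only [h1, h2]
      rw [hzd, abs_div, abs_of_pos (sub_pos.2 hst), le_div_iff₀ (sub_pos.2 hst)] at hgz
      have h3 : |f t - f s| ≤ 2 * a := (abs_sub _ _).trans (by linarith only [hfs, hft])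
      have h4 : c / 2 * (t - s) ≤ 2 * a := hgz.trans h3
      rw [div_mul_eq_mul_div, le_div_iff₀ hc]
      linarith only [hgz, h3]
    intro s hs t ht hfs hft
    rcases lt_trichotomy s t with h | h | h
    · rw [abs_of_pos (sub_pos.2 h)]
      exact hlt s hs t ht hfs hft h
    · rw [h, sub_self, abs_zero]
      have : 0 ≤ a := (abs_nonneg _).trans hfs
      positivity
    · rw [abs_sub_comm, abs_of_pos (sub_pos.2 h)]
      exact hlt t ht s hs hft hfs h
  set ch : Fin M → ℝ := fun m =>
    if h : ∃ s ∈ I m, |f s| ≤ a then h.choose else 0 with hch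
  refine ⟨Finset.univ.image ch, ?_, ?_⟩
  · refine Finset.card_image_le.trans ?_
    rw [Finset.card_univ, Fintype.card_fin]
  · intro t h0 h1 hft hgt
    obtain ⟨m, hm⟩ := hcov t h0 h1 hgt
    have hex : ∃ s ∈ I m, |f s| ≤ a := ⟨t, hm, hft⟩
    refine ⟨ch m, Finset.mem_image_of_mem _ (Finset.mem_univ m), ?_⟩
    have e : ch m = hex.choose := by rw [hch]; exact dif_pos hex
    rw [e]
    exact key m _ hex.choose_spec.1 t hm hex.choose_spec.2 hft

end Pool.QQ
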