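import Mathlib

/-!
# Glueing of quadric labels, nominal directions: the algebra (row GLA)

`Q` is a polynomial of degree at most two in each of the three variables `x₁, x₂, x₃`,
`B = b₁₂ x₁ x₂ + b₁₃ x₁ x₃ + b₂₃ x₂ x₃` is a quadratic form which vanishes, up to `κ`, at four
further directions `(u, v, w)`, and `Q` has degree at most two, up to `τ`, on all lines parallel to
these directions. Then `Q = q₂ + λ B + μ B²` up to `ρ ^ (-C) (τ + κ E)`.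
-/

set_option autoImplicit false

namespace Pool.QQ

/-- Bounded functions: at most a fixed power of `R`. -/
def Bd {Ψ : Type} (R : Ψ → ℝ) (x : Ψ → ℝ) : Prop := ∃ n : ℕ, ∀ ψ, |x ψ| ≤ R ψ ^ n

/-- Small functions: at most `e` times a fixed power of `R`. -/
def Sm {Ψ : Type} (R e : Ψ → ℝ) (x : Ψ → ℝ) : Prop := ∃ n : ℕ, ∀ ψ, |x ψ| ≤ R ψ ^ n * e ψ

section Calculus

variable {Ψ : Type} {R e : Ψ → ℝ} {x y : Ψ → ℝ}

theorem Bd.congr (h : Bd R x) (hxy : ∀ ψ, y ψ = x ψ) : Bd R y := by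
  obtain ⟨n, hn⟩ := h
  exact ⟨n, fun ψ => by rw [hxy ψ]; exact hn ψ⟩

theorem Sm.congr (h : Sm R e x) (hxy : ∀ ψ, y ψ = x ψ) : Sm R e y := by
  obtain ⟨n, hn⟩ := h
  exact ⟨n, fun ψ => by rw [hxy ψ]; exact hn ψ⟩

theorem Bd.const (hR : ∀ ψ, 2 ≤ R ψ) (c : ℝ) : Bd R (fun _ : Ψ => c) := by
  obtain ⟨n, hn⟩ := pow_unbounded_of_one_lt |c| (by norm_num : (1 : ℝ) < 2)
  exact ⟨n, fun ψ => hn.le.trans (pow_le_pow_left₀ (by norm_num) (hR ψ) n)⟩

theorem Bd.mul (hx : Bd R x) (hy : Bd R y) : Bd R (fun ψ => x ψ * y ψ) := by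
  obtain ⟨n, hn⟩ := hx
  obtain ⟨m, hm⟩ := hy
  refine ⟨n + m, fun ψ => ?_⟩
  rw [abs_mul, pow_add]
  exact mul_le_mul (hn ψ) (hm ψ) (abs_nonneg _) ((abs_nonneg _).trans (hn ψ))

theorem Bd.add (hR : ∀ ψ, 2 ≤ R ψ) (hx : Bd R x) (hy : Bd R y) : Bd R (fun ψ => x ψ + y ψ) := by
  obtain ⟨n, hn⟩ := hx
  obtain ⟨m, hm⟩ := hy
  refine ⟨max n m + 1, fun ψ => ?_⟩
  have h1 : (1 : ℝ) ≤ R ψ := by linarith [hR ψ]
  have h2 : R ψ ^ n ≤ R ψ ^ max n m := pow_le_pow_right₀ h1 (le_max_left _ _)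
  have h3 : R ψ ^ m ≤ R ψ ^ max n m := pow_le_pow_right₀ h1 (le_max_right _ _)
  have h4 : 0 ≤ R ψ ^ max n m := pow_nonneg (by linarith) _
  rw [pow_succ]
  have h5 := hR ψ
  calc |x ψ + y ψ| ≤ |x ψ| + |y ψ| := abs_add_le _ _
    _ ≤ R ψ ^ max n m * 2 := by linarith [hn ψ, hm ψ]
    _ ≤ R ψ ^ max n m * R ψ := mul_le_mul_of_nonneg_left h5 h4

theorem Bd.neg (hx : Bd R x) : Bd R (fun ψ => -x ψ) := by
  obtain ⟨n, hn⟩ := hx
  exact ⟨n, fun ψ => by rw [abs_neg]; exact hn ψ⟩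

theorem Bd.sub (hR : ∀ ψ, 2 ≤ R ψ) (hx : Bd R x) (hy : Bd R y) : Bd R (fun ψ => x ψ - y ψ) :=
  (Bd.add hR hx hy.neg).congr fun _ => sub_eq_add_neg _ _

theorem Sm.mul (hx : Bd R x) (hy : Sm R e y) : Sm R e (fun ψ => x ψ * y ψ) := by
  obtain ⟨n, hn⟩ := hx
  obtain ⟨m, hm⟩ := hy
  refine ⟨n + m, fun ψ => ?_⟩
  rw [abs_mul, pow_add, mul_assoc]
  exact mul_le_mul (hn ψ) (hm ψ) (abs_nonneg _) ((abs_nonneg _).trans (hn ψ))

theorem Bd.sm (hx : Bd R x) (hy : Sm R e y) : Sm R e (fun ψ => x ψ * y ψ) := Sm.mul hx hy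

theorem Sm.add (hR : ∀ ψ, 2 ≤ R ψ) (he : ∀ ψ, 0 ≤ e ψ) (hx : Sm R e x) (hy : Sm R e y) :
    Sm R e (fun ψ => x ψ + y ψ) := by
  obtain ⟨n, hn⟩ := hx
  obtain ⟨m, hm⟩ := hy
  refine ⟨max n m + 1, fun ψ => ?_⟩
  have h1 : (1 : ℝ) ≤ R ψ := by linarith [hR ψ]
  have h2 : R ψ ^ n * e ψ ≤ R ψ ^ max n m * e ψ :=
    mul_le_mul_of_nonneg_right (pow_le_pow_right₀ h1 (le_max_left _ _)) (he ψ)
  have h3 : R ψ ^ m * e ψ ≤ R ψ ^ max n m * e ψ :=
    mul_le_mul_of_nonneg_right (pow_le_pow_right₀ h1 (le_max_right _ _)) (he ψ)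
  have h4 : 0 ≤ R ψ ^ max n m * e ψ := mul_nonneg (pow_nonneg (by linarith) _) (he ψ)
  rw [pow_succ]
  have h5 := hR ψ
  calc |x ψ + y ψ| ≤ |x ψ| + |y ψ| := abs_add_le _ _
    _ ≤ (R ψ ^ max n m * e ψ) * 2 := by linarith [hn ψ, hm ψ]
    _ ≤ (R ψ ^ max n m * e ψ) * R ψ := mul_le_mul_of_nonneg_left h5 h4
    _ = R ψ ^ max n m * R ψ * e ψ := by ring

theorem Sm.neg (hx : Sm R e x) : Sm R e (fun ψ => -x ψ) := by
  obtain ⟨n, hn⟩ := hx
  exact ⟨n, fun ψ => by rw [abs_neg]; exact hn ψ⟩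

theorem Sm.sub (hR : ∀ ψ, 2 ≤ R ψ) (he : ∀ ψ, 0 ≤ e ψ) (hx : Sm R e x) (hy : Sm R e y) :
    Sm R e (fun ψ => x ψ - y ψ) :=
  (Sm.add hR he hx hy.neg).congr fun _ => sub_eq_add_neg _ _

/-- Coefficients of a linear polynomial which is small at two separated nodes. -/
theorem lin_small (hR : ∀ ψ, 2 ≤ R ψ) (he : ∀ ψ, 0 ≤ e ψ) {a₀ a₁ s t : Ψ → ℝ}
    (hs : Bd R s) (hne : ∀ ψ, s ψ ≠ t ψ) (hst : Bd R (fun ψ => (s ψ - t ψ)⁻¹))
    (h1 : Sm R e (fun ψ => a₀ ψ + a₁ ψ * s ψ)) (h2 : Sm R e (fun ψ => a₀ ψ + a₁ ψ * t ψ)) :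
    Sm R e a₁ ∧ Sm R e a₀ := by
  have h3 : Sm R e a₁ := by
    refine (Sm.mul hst (Sm.sub hR he h1 h2)).congr fun ψ => ?_
    have := sub_ne_zero.2 (hne ψ)
    field_simp
    ring
  refine ⟨h3, ?_⟩
  refine (Sm.sub hR he h1 (Sm.mul hs h3)).congr fun ψ => ?_
  ring

/-- Coefficients of a quadratic polynomial which is small at three separated nodes. -/
theorem quad_small (hR : ∀ ψ, 2 ≤ R ψ) (he : ∀ ψ, 0 ≤ e ψ) {a₀ a₁ a₂ : Ψ → ℝ}
    (s : Fin 3 → Ψ → ℝ) (hs : ∀ i, Bd R (s i)) (hne : ∀ ψ i j, i ≠ j → s i ψ ≠ s j ψ)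
    (hst : ∀ i j, i ≠ j → Bd R (fun ψ => (s i ψ - s j ψ)⁻¹))
    (h : ∀ i, Sm R e (fun ψ => a₀ ψ + a₁ ψ * s i ψ + a₂ ψ * s i ψ ^ 2)) :
    Sm R e a₂ ∧ Sm R e a₁ ∧ Sm R e a₀ := by
  have h01 : (0 : Fin 3) ≠ 1 := by decide
  have h02 : (0 : Fin 3) ≠ 2 := by decide
  have h12 : (1 : Fin 3) ≠ 2 := by decide
  have d1 : Sm R e (fun ψ => a₁ ψ + a₂ ψ * (s 0 ψ + s 1 ψ)) := by
    refine (Sm.mul (hst 0 1 h01) (Sm.sub hR he (h 0) (h 1))).congr fun ψ => ?_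
    have := sub_ne_zero.2 (hne ψ 0 1 h01)
    field_simp
    ring
  have d2 : Sm R e (fun ψ => a₁ ψ + a₂ ψ * (s 0 ψ + s 2 ψ)) := by
    refine (Sm.mul (hst 0 2 h02) (Sm.sub hR he (h 0) (h 2))).congr fun ψ => ?_
    have := sub_ne_zero.2 (hne ψ 0 2 h02)
    field_simp
    ring
  have h3 : Sm R e a₂ := by
    refine (Sm.mul (hst 1 2 h12) (Sm.sub hR he d1 d2)).congr fun ψ => ?_
    have := sub_ne_zero.2 (hne ψ 1 2 h12)
    field_simp
    ring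
  have h4 : Sm R e a₁ := by
    refine (Sm.sub hR he d1 (Sm.mul (Bd.add hR (hs 0) (hs 1)) h3)).congr fun ψ => ?_
    ring
  refine ⟨h3, h4, ?_⟩
  refine (Sm.sub hR he (Sm.sub hR he (h 0) (Sm.mul (hs 0) h4))
    (Sm.mul (Bd.mul (hs 0) (hs 0)) h3)).congr fun ψ => ?_
  ring

/-- Coefficients of a cubic polynomial which is small at four separated nodes. -/
theorem cubic_small (hR : ∀ ψ, 2 ≤ R ψ) (he : ∀ ψ, 0 ≤ e ψ) {a₀ a₁ a₂ a₃ : Ψ → ℝ}
    (s : Fin 4 → Ψ → ℝ) (hs : ∀ i, Bd R (s i)) (hne : ∀ ψ i j, i ≠ j → s i ψ ≠ s j ψ)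
    (hst : ∀ i j, i ≠ j → Bd R (fun ψ => (s i ψ - s j ψ)⁻¹))
    (h : ∀ i, Sm R e (fun ψ => a₀ ψ + a₁ ψ * s i ψ + a₂ ψ * s i ψ ^ 2 + a₃ ψ * s i ψ ^ 3)) :
    Sm R e a₃ ∧ Sm R e a₂ ∧ Sm R e a₁ ∧ Sm R e a₀ := by
  -- divided differences with the last node
  have d : ∀ i : Fin 3, Sm R e (fun ψ => (a₁ ψ + a₂ ψ * s 3 ψ + a₃ ψ * s 3 ψ ^ 2) +
      (a₂ ψ + a₃ ψ * s 3 ψ) * s i.castSucc ψ + a₃ ψ * s i.castSucc ψ ^ 2) := by
    intro i
    have hi : i.castSucc ≠ (3 : Fin 4) := by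
      intro h'
      have h1 : (i : ℕ) = 3 := congrArg Fin.val h'
      have h2 := i.2
      omega
    refine (Sm.mul (hst i.castSucc 3 hi) (Sm.sub hR he (h i.castSucc) (h 3))).congr fun ψ => ?_
    have := sub_ne_zero.2 (hne ψ i.castSucc 3 hi)
    field_simp
    ring
  have hc : ∀ i j : Fin 3, i ≠ j → i.castSucc ≠ j.castSucc := fun i j hij h' =>
    hij (Fin.castSucc_injective _ h')
  obtain ⟨e1, e2, e3⟩ := quad_small hR he (fun i => s i.castSucc) (fun i => hs _)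
    (fun ψ i j hij => hne ψ _ _ (hc i j hij)) (fun i j hij => hst _ _ (hc i j hij)) d
  have h3 : Sm R e a₃ := e1
  have h2 : Sm R e a₂ := by
    refine (Sm.sub hR he e2 (Sm.mul (hs 3) h3)).congr fun ψ => ?_
    ring
  have h1 : Sm R e a₁ := by
    refine (Sm.sub hR he (Sm.sub hR he e3 (Sm.mul (hs 3) h2))
      (Sm.mul (Bd.mul (hs 3) (hs 3)) h3)).congr fun ψ => ?_
    ring
  refine ⟨h3, h2, h1, ?_⟩
  refine (Sm.sub hR he (Sm.sub hR he (Sm.sub hR he (h 0) (Sm.mul (hs 0) h1))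
    (Sm.mul (Bd.mul (hs 0) (hs 0)) h2)) (Sm.mul (Bd.mul (Bd.mul (hs 0) (hs 0)) (hs 0)) h3)).congr
      fun ψ => ?_
  ring

end Calculus

/-- Data of the algebraic lemma: a polynomial of degree at most two in each variable (its
coefficients of total degree at least three), a quadratic form and four directions. -/
structure GDat where
  ρ : ℝ
  κ : ℝ
  τ : ℝ
  E : ℝ
  q222 : ℝ
  q221 : ℝ
  q212 : ℝ
  q122 : ℝ
  q220 : ℝ
  q202 : ℝ
  q022 : ℝ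
  q211 : ℝ
  q121 : ℝ
  q112 : ℝ
  q210 : ℝ
  q201 : ℝ
  q120 : ℝ
  q021 : ℝ
  q102 : ℝ
  q012 : ℝ
  q111 : ℝ
  b12 : ℝ
  b13 : ℝ
  b23 : ℝ
  u : Fin 4 → ℝ
  v : Fin 4 → ℝ
  w : Fin 4 → ℝ
  hρ : 0 < ρ
  hρ1 : ρ ≤ 1
  hκ : 0 ≤ κ
  hτ : 0 ≤ τ
  hE : 0 ≤ E
  hq222 : |q222| ≤ E
  hq221 : |q221| ≤ E
  hq212 : |q212| ≤ E
  hq122 : |q122| ≤ E
  hq220 : |q220| ≤ E
  hq202 : |q202| ≤ E
  hq022 : |q022| ≤ E
  hq211 : |q211| ≤ E
  hq121 : |q121| ≤ E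
  hq112 : |q112| ≤ E
  hq210 : |q210| ≤ E
  hq201 : |q201| ≤ E
  hq120 : |q120| ≤ E
  hq021 : |q021| ≤ E
  hq102 : |q102| ≤ E
  hq012 : |q012| ≤ E
  hq111 : |q111| ≤ E
  hb12 : |b12| ≤ 1
  hb13 : |b13| ≤ 1
  hb23 : |b23| ≤ 1
  hb12' : ρ ≤ |b12|
  hb13' : ρ ≤ |b13|
  hb23' : ρ ≤ |b23|
  hu : ∀ j, |u j| ≤ 1
  hv : ∀ j, |v j| ≤ 1
  hw : ∀ j, |w j| ≤ 1
  hu' : ∀ j, ρ ≤ |u j|
  hv' : ∀ j, ρ ≤ |v j|
  hw' : ∀ j, ρ ≤ |w j|
  hsep : ∀ j l, j ≠ l → ρ ≤ |u j * v l - u l * v j|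
  hsep' : ρ ≤ |v 0 * w 1 - v 1 * w 0|
  hB : ∀ j, |b12 * u j * v j + b13 * u j * w j + b23 * v j * w j| ≤ κ
  hT6 : |q222 * (u 0 * v 0 * w 0) ^ 2| ≤ τ
  hT5 : ∀ j, |u j * v j * w j * (q221 * u j * v j + q212 * u j * w j + q122 * v j * w j)| ≤ τ
  hT51 : |2 * q221 * u 0 * v 0 ^ 2 * w 0 + 2 * q212 * u 0 * v 0 * w 0 ^ 2 +
    q122 * v 0 ^ 2 * w 0 ^ 2| ≤ τ
  hT41 : ∀ j, |2 * q220 * u j * v j ^ 2 + 2 * q202 * u j * w j ^ 2 +
    v j * w j * (2 * q211 * u j + q121 * v j + q112 * w j)| ≤ τ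
  hT42 : ∀ j, |2 * q220 * u j ^ 2 * v j + 2 * q022 * v j * w j ^ 2 +
    u j * w j * (q211 * u j + 2 * q121 * v j + q112 * w j)| ≤ τ
  hT33 : ∀ j, |q210 * u j ^ 2 * v j + q201 * u j ^ 2 * w j + q120 * v j ^ 2 * u j +
    q021 * v j ^ 2 * w j + q102 * w j ^ 2 * u j + q012 * w j ^ 2 * v j +
    q111 * u j * v j * w j| ≤ τ

namespace GDat

/-- The large parameter. -/
noncomputable def R (D : GDat) : ℝ := 2 / D.ρ

/-- The small parameter. -/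
def e (D : GDat) : ℝ := D.τ + D.κ * D.E

theorem R_ge (D : GDat) : 2 ≤ D.R := by
  unfold R
  rw [le_div_iff₀ D.hρ]
  linarith [D.hρ1]

theorem e_nonneg (D : GDat) : 0 ≤ D.e := add_nonneg D.hτ (mul_nonneg D.hκ D.hE)

theorem inv_le (D : GDat) {x : ℝ} (h : D.ρ ≤ |x|) : |x⁻¹| ≤ D.R ^ 1 := by
  rw [pow_one, abs_inv, R]
  have h1 : 0 < |x| := lt_of_lt_of_le D.hρ h
  rw [le_div_iff₀ D.hρ, ← div_eq_inv_mul, div_le_iff₀ h1]
  linarith

theorem ne_of (D : GDat) {x : ℝ} (h : D.ρ ≤ |x|) : x ≠ 0 := by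
  intro hx
  rw [hx, abs_zero] at h
  linarith [D.hρ]

theorem bd_one {x : GDat → ℝ} (h : ∀ D, |x D| ≤ 1) : Bd R x :=
  ⟨0, fun D => by rw [pow_zero]; exact h D⟩

theorem bd_inv {x : GDat → ℝ} (h : ∀ D : GDat, D.ρ ≤ |x D|) : Bd R (fun D => (x D)⁻¹) :=
  ⟨1, fun D => D.inv_le (h D)⟩

theorem sm_tau {x : GDat → ℝ} (h : ∀ D : GDat, |x D| ≤ D.τ) : Sm R e x :=
  ⟨0, fun D => by
    rw [pow_zero, one_mul]
    exact (h D).trans (le_add_of_nonneg_right (mul_nonneg D.hκ D.hE))⟩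

theorem sm_B (j : Fin 4) {x : GDat → ℝ} (h : ∀ D : GDat, |x D| ≤ D.E) :
    Sm R e (fun D => (D.b12 * D.u j * D.v j + D.b13 * D.u j * D.w j + D.b23 * D.v j * D.w j) *
      x D) :=
  ⟨0, fun D => by
    rw [pow_zero, one_mul, abs_mul]
    have h1 := mul_le_mul (D.hB j) (h D) (abs_nonneg _) D.hκ
    exact h1.trans (le_add_of_nonneg_left D.hτ)⟩

end GDat


namespace GDat

theorem bu (j : Fin 4) : Bd R (fun D => D.u j) := bd_one fun D => D.hu j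
theorem bv (j : Fin 4) : Bd R (fun D => D.v j) := bd_one fun D => D.hv j
theorem bw (j : Fin 4) : Bd R (fun D => D.w j) := bd_one fun D => D.hw j
theorem bui (j : Fin 4) : Bd R (fun D => (D.u j)⁻¹) := bd_inv fun D => D.hu' j
theorem bvi (j : Fin 4) : Bd R (fun D => (D.v j)⁻¹) := bd_inv fun D => D.hv' j
theorem bwi (j : Fin 4) : Bd R (fun D => (D.w j)⁻¹) := bd_inv fun D => D.hw' j
theorem b1 : Bd R b12 := bd_one hb12
theorem b2 : Bd R b13 := bd_one hb13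
theorem b3 : Bd R b23 := bd_one hb23
theorem b1i : Bd R (fun D => (D.b12)⁻¹) := bd_inv hb12'
theorem b2i : Bd R (fun D => (D.b13)⁻¹) := bd_inv hb13'
theorem b3i : Bd R (fun D => (D.b23)⁻¹) := bd_inv hb23'
theorem bc (c : ℝ) : Bd R (fun _ : GDat => c) := Bd.const R_ge c

theorem deg6 : Sm R e q222 := by
  have h : Sm R e (fun D => D.q222 * (D.u 0 * D.v 0 * D.w 0) ^ 2) := sm_tau hT6
  have hb := ((bui 0).mul (bvi 0)).mul (bwi 0)
  refine ((hb.mul hb).sm h).congr fun D => ?_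
  have h1 := D.ne_of (D.hu' 0)
  have h2 := D.ne_of (D.hv' 0)
  have h3 := D.ne_of (D.hw' 0)
  field_simp

theorem deg5 : Sm R e q122 ∧ Sm R e q221 ∧ Sm R e q212 := by
  have hB := fun j => sm_B j hq122
  -- the linear relation in direction `j`
  have hL : ∀ j, Sm R e (fun D => D.v j * (D.q221 - D.q122 * D.b12 / D.b23) +
      D.w j * (D.q212 - D.q122 * D.b13 / D.b23)) := by
    intro j
    have h := sm_tau (fun D : GDat => D.hT5 j)
    have h1 := (((bui j).mul (bvi j)).mul (bwi j)).sm h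
    have h2 := b3i.sm (hB j)
    refine ((bui j).sm (Sm.sub R_ge e_nonneg h1 h2)).congr fun D => ?_
    have h1 := D.ne_of (D.hu' j)
    have h2 := D.ne_of (D.hv' j)
    have h3 := D.ne_of (D.hw' j)
    have h4 := D.ne_of D.hb23'
    field_simp
    ring
  have hdet : Bd R (fun D => (D.v 0 * D.w 1 - D.v 1 * D.w 0)⁻¹) := bd_inv hsep'
  have hA : Sm R e (fun D => D.q221 - D.q122 * D.b12 / D.b23) := by
    refine (hdet.sm (Sm.sub R_ge e_nonneg ((bw 1).sm (hL 0)) ((bw 0).sm (hL 1)))).congr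
      fun D => ?_
    have h0 := D.ne_of D.hsep'
    have h4 := D.ne_of D.hb23'
    field_simp
    ring
  have hC : Sm R e (fun D => D.q212 - D.q122 * D.b13 / D.b23) := by
    refine (hdet.sm (Sm.sub R_ge e_nonneg ((bv 0).sm (hL 1)) ((bv 1).sm (hL 0)))).congr
      fun D => ?_
    have h0 := D.ne_of D.hsep'
    have h4 := D.ne_of D.hb23'
    field_simp
    ring
  have hT := sm_tau hT51
  have hq : Sm R e q122 := by
    have e1 := (((((bc 2).mul (bu 0)).mul (bv 0)).mul (bv 0)).mul (bw 0)).sm hA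
    have e2 := (((((bc 2).mul (bu 0)).mul (bv 0)).mul (bw 0)).mul (bw 0)).sm hC
    have e3 := ((((bc 2).mul (bv 0)).mul (bw 0)).mul b3i).sm (hB 0)
    have e4 := Sm.sub R_ge e_nonneg (Sm.sub R_ge e_nonneg (Sm.sub R_ge e_nonneg hT e1) e2) e3
    have hi := ((bvi 0).mul (bwi 0))
    refine ((hi.mul hi).sm e4.neg).congr fun D => ?_
    have h2 := D.ne_of (D.hv' 0)
    have h3 := D.ne_of (D.hw' 0)
    have h4 := D.ne_of D.hb23'
    field_simp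
    ring
  refine ⟨hq, ?_, ?_⟩
  · refine (Sm.add R_ge e_nonneg hA ((b1.mul b3i).sm hq)).congr fun D => ?_
    have h4 := D.ne_of D.hb23'
    field_simp
    ring
  · refine (Sm.add R_ge e_nonneg hC ((b2.mul b3i).sm hq)).congr fun D => ?_
    have h4 := D.ne_of D.hb23'
    field_simp
    ring

/-- The nodes `s = v / u`. -/
noncomputable def s (j : Fin 4) (D : GDat) : ℝ := D.v j / D.u j

theorem bs (j : Fin 4) : Bd R (s j) :=
  ((bv j).mul (bui j)).congr fun D => by rw [s, div_eq_mul_inv]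

theorem bsi (j : Fin 4) : Bd R (fun D => (s j D)⁻¹) :=
  ((bu j).mul (bvi j)).congr fun D => by rw [s, inv_div, div_eq_mul_inv]

theorem s_sep (j l : Fin 4) (D : GDat) (h : j ≠ l) : D.ρ ≤ |s j D - s l D| := by
  have h1 := D.ne_of (D.hu' j)
  have h2 := D.ne_of (D.hu' l)
  have e1 : s j D - s l D = -(D.u j * D.v l - D.u l * D.v j) / (D.u j * D.u l) := by
    unfold s
    field_simp
    ring
  rw [e1, abs_div, abs_neg, le_div_iff₀ (abs_pos.2 (mul_ne_zero h1 h2)), abs_mul]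
  have h3 : |D.u j| * |D.u l| ≤ 1 * 1 :=
    mul_le_mul (D.hu j) (D.hu l) (abs_nonneg _) (by norm_num)
  have h4 := D.hsep j l h
  nlinarith [D.hρ]

theorem s_ne (D : GDat) (j l : Fin 4) (h : j ≠ l) : s j D ≠ s l D := by
  intro h'
  have h1 := s_sep j l D h
  rw [h', sub_self, abs_zero] at h1
  linarith [D.hρ]

theorem s_inv (j l : Fin 4) (h : j ≠ l) : Bd R (fun D => (s j D - s l D)⁻¹) :=
  bd_inv fun D => s_sep j l D h

/-- `β q`, where `β = B / u²`. -/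
theorem sm_beta (j : Fin 4) {x : GDat → ℝ} (h : ∀ D : GDat, |x D| ≤ D.E) :
    Sm R e (fun D => (D.b12 * s j D + D.w j / D.u j * (D.b13 + D.b23 * s j D)) * x D) := by
  refine (((bui j).mul (bui j)).sm (sm_B j h)).congr fun D => ?_
  have h1 := D.ne_of (D.hu' j)
  unfold s
  field_simp
  ring

theorem deg4 : Sm R e (fun D => D.q202 - D.q220 / D.b12 ^ 2 * D.b13 ^ 2) ∧
    Sm R e (fun D => D.q022 - D.q220 / D.b12 ^ 2 * D.b23 ^ 2) ∧
    Sm R e (fun D => D.q211 - 2 * (D.q220 / D.b12 ^ 2) * D.b12 * D.b13) ∧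
    Sm R e (fun D => D.q121 - 2 * (D.q220 / D.b12 ^ 2) * D.b12 * D.b23) ∧
    Sm R e (fun D => D.q112 - 2 * (D.q220 / D.b12 ^ 2) * D.b13 * D.b23) := by
  -- bounded functions
  have bp : ∀ j, Bd R (fun D => D.w j / D.u j) := fun j =>
    ((bw j).mul (bui j)).congr fun D => div_eq_mul_inv _ _
  have bD : ∀ j, Bd R (fun D => D.b13 + D.b23 * s j D) := fun j =>
    Bd.add R_ge b2 (b3.mul (bs j))
  have bβ : ∀ j, Bd R (fun D => (D.b12 * s j D + D.w j / D.u j * (D.b13 + D.b23 * s j D)) -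
      2 * D.b12 * s j D) := fun j =>
    Bd.sub R_ge (Bd.add R_ge (b1.mul (bs j)) ((bp j).mul (bD j))) (((bc 2).mul b1).mul (bs j))
  -- first relation
  have H1 : ∀ j, Sm R e (fun D =>
      (2 * D.q220 * D.b13 ^ 2 + 2 * D.q202 * D.b12 ^ 2 - 2 * D.b12 * D.b13 * D.q211) +
      (4 * D.q220 * D.b13 * D.b23 - D.b12 * D.b13 * D.q121 - 2 * D.b12 * D.b23 * D.q211 +
        D.q112 * D.b12 ^ 2) * s j D +
      (2 * D.q220 * D.b23 ^ 2 - D.b12 * D.b23 * D.q121) * s j D ^ 2) := by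
    intro j
    have hT := sm_tau (fun D : GDat => D.hT41 j)
    have t0 := (((bD j).mul (bD j)).mul (((bui j).mul (bui j)).mul (bui j))).sm hT
    have t1 := ((bc 2).mul (bβ j)).sm (sm_beta j hq202)
    have t2 := (((bc 2).mul (bs j)).mul (bD j)).sm (sm_beta j hq211)
    have t3 := (((bs j).mul (bs j)).mul (bD j)).sm (sm_beta j hq121)
    have t4 := ((bs j).mul (bβ j)).sm (sm_beta j hq112)
    have t5 := Sm.sub R_ge e_nonneg (Sm.sub R_ge e_nonneg (Sm.sub R_ge e_nonneg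
      (Sm.sub R_ge e_nonneg t0 t1) t2) t3) t4
    refine (((bsi j).mul (bsi j)).sm t5).congr fun D => ?_
    have h1 := D.ne_of (D.hu' j)
    have h2 := D.ne_of (D.hv' j)
    unfold s
    field_simp
    ring
  have H2 : ∀ j, Sm R e (fun D =>
      (2 * D.q220 * D.b13 ^ 2 - D.b12 * D.b13 * D.q211) +
      (4 * D.q220 * D.b13 * D.b23 - 2 * D.b12 * D.b13 * D.q121 - D.b12 * D.b23 * D.q211 +
        D.q112 * D.b12 ^ 2) * s j D +
      (2 * D.q220 * D.b23 ^ 2 + 2 * D.q022 * D.b12 ^ 2 - 2 * D.b12 * D.b23 * D.q121) *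
        s j D ^ 2) := by
    intro j
    have hT := sm_tau (fun D : GDat => D.hT42 j)
    have t0 := (((bD j).mul (bD j)).mul (((bui j).mul (bui j)).mul (bui j))).sm hT
    have t1 := (((bc 2).mul (bs j)).mul (bβ j)).sm (sm_beta j hq022)
    have t2 := (bD j).sm (sm_beta j hq211)
    have t3 := (((bc 2).mul (bs j)).mul (bD j)).sm (sm_beta j hq121)
    have t4 := (bβ j).sm (sm_beta j hq112)
    have t5 := Sm.sub R_ge e_nonneg (Sm.sub R_ge e_nonneg (Sm.sub R_ge e_nonneg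
      (Sm.sub R_ge e_nonneg t0 t1) t2) t3) t4
    refine ((bsi j).sm t5).congr fun D => ?_
    have h1 := D.ne_of (D.hu' j)
    have h2 := D.ne_of (D.hv' j)
    unfold s
    field_simp
    ring
  have hc : ∀ i j : Fin 3, i ≠ j → i.castSucc ≠ j.castSucc := fun i j hij h' =>
    hij (Fin.castSucc_injective _ h')
  obtain ⟨a2, a1, a0⟩ := quad_small R_ge e_nonneg (fun i : Fin 3 => s i.castSucc)
    (fun i => bs _) (fun ψ i j hij => s_ne ψ _ _ (hc i j hij))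
    (fun i j hij => s_inv _ _ (hc i j hij)) (fun i => H1 i.castSucc)
  obtain ⟨c2, c1, c0⟩ := quad_small R_ge e_nonneg (fun i : Fin 3 => s i.castSucc)
    (fun i => bs _) (fun ψ i j hij => s_ne ψ _ _ (hc i j hij))
    (fun i j hij => s_inv _ _ (hc i j hij)) (fun i => H2 i.castSucc)
  refine ⟨?_, ?_, ?_, ?_, ?_⟩
  · -- q202
    refine ((((bc (1 / 2)).mul b1i).mul b1i).sm
      (Sm.sub R_ge e_nonneg a0 ((bc 2).sm c0))).congr fun D => ?_
    have h4 := D.ne_of D.hb12'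
    field_simp
    ring
  · refine ((((bc (1 / 2)).mul b1i).mul b1i).sm
      (Sm.sub R_ge e_nonneg c2 ((bc 2).sm a2))).congr fun D => ?_
    have h4 := D.ne_of D.hb12'
    field_simp
    ring
  · refine ((b1i.mul b2i).sm c0.neg).congr fun D => ?_
    have h4 := D.ne_of D.hb12'
    have h5 := D.ne_of D.hb13'
    field_simp
    ring
  · refine ((b1i.mul b3i).sm a2.neg).congr fun D => ?_
    have h4 := D.ne_of D.hb12'
    have h5 := D.ne_of D.hb23'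
    field_simp
    ring
  · -- q112
    have t := Sm.sub R_ge e_nonneg (Sm.sub R_ge e_nonneg a1 ((b2.mul b3i).sm a2))
      (((bc 2).mul (b3.mul b2i)).sm c0)
    refine ((b1i.mul b1i).sm t).congr fun D => ?_
    have h4 := D.ne_of D.hb12'
    have h5 := D.ne_of D.hb23'
    have h6 := D.ne_of D.hb13'
    field_simp
    ring

theorem deg3 : Sm R e (fun D => D.q201 - D.q210 / D.b12 * D.b13) ∧
    Sm R e (fun D => D.q021 - D.q120 / D.b12 * D.b23) ∧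
    Sm R e (fun D => D.q012 - D.q102 / D.b13 * D.b23) ∧
    Sm R e (fun D => D.q111 - (D.q210 / D.b12 * D.b23 + D.q120 / D.b12 * D.b13 +
      D.q102 / D.b13 * D.b12)) := by
  have bp : ∀ j, Bd R (fun D => D.w j / D.u j) := fun j =>
    ((bw j).mul (bui j)).congr fun D => div_eq_mul_inv _ _
  have bD : ∀ j, Bd R (fun D => D.b13 + D.b23 * s j D) := fun j =>
    Bd.add R_ge b2 (b3.mul (bs j))
  have bβ : ∀ j, Bd R (fun D => (D.b12 * s j D + D.w j / D.u j * (D.b13 + D.b23 * s j D)) -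
      2 * D.b12 * s j D) := fun j =>
    Bd.sub R_ge (Bd.add R_ge (b1.mul (bs j)) ((bp j).mul (bD j))) (((bc 2).mul b1).mul (bs j))
  have H3 : ∀ j, Sm R e (fun D =>
      (D.q210 * D.b13 ^ 2 - D.b12 * D.b13 * D.q201) +
      (2 * D.q210 * D.b13 * D.b23 - D.b12 * D.b23 * D.q201 + D.q120 * D.b13 ^ 2 +
        D.b12 ^ 2 * D.q102 - D.b12 * D.b13 * D.q111) * s j D +
      (D.q210 * D.b23 ^ 2 + 2 * D.q120 * D.b13 * D.b23 - D.b12 * D.b13 * D.q021 +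
        D.b12 ^ 2 * D.q012 - D.b12 * D.b23 * D.q111) * s j D ^ 2 +
      (D.q120 * D.b23 ^ 2 - D.b12 * D.b23 * D.q021) * s j D ^ 3) := by
    intro j
    have hT := sm_tau (fun D : GDat => D.hT33 j)
    have t0 := (((bD j).mul (bD j)).mul (((bui j).mul (bui j)).mul (bui j))).sm hT
    have t1 := (bD j).sm (sm_beta j hq201)
    have t2 := (((bs j).mul (bs j)).mul (bD j)).sm (sm_beta j hq021)
    have t3 := (bβ j).sm (sm_beta j hq102)
    have t4 := ((bs j).mul (bβ j)).sm (sm_beta j hq012)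
    have t5 := ((bs j).mul (bD j)).sm (sm_beta j hq111)
    have t6 := Sm.sub R_ge e_nonneg (Sm.sub R_ge e_nonneg (Sm.sub R_ge e_nonneg
      (Sm.sub R_ge e_nonneg (Sm.sub R_ge e_nonneg t0 t1) t2) t3) t4) t5
    refine ((bsi j).sm t6).congr fun D => ?_
    have h1 := D.ne_of (D.hu' j)
    have h2 := D.ne_of (D.hv' j)
    unfold s
    field_simp
    ring
  obtain ⟨a3, a2, a1, a0⟩ := cubic_small R_ge e_nonneg s bs (fun ψ i j hij => s_ne ψ _ _ hij)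
    (fun i j hij => s_inv _ _ hij) H3
  have h201 : Sm R e (fun D => D.q201 - D.q210 / D.b12 * D.b13) := by
    refine ((b1i.mul b2i).sm a0.neg).congr fun D => ?_
    have h4 := D.ne_of D.hb12'
    have h6 := D.ne_of D.hb13'
    field_simp
    ring
  have h021 : Sm R e (fun D => D.q021 - D.q120 / D.b12 * D.b23) := by
    refine ((b1i.mul b3i).sm a3.neg).congr fun D => ?_
    have h4 := D.ne_of D.hb12'
    have h6 := D.ne_of D.hb23'
    field_simp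
    ring
  have h111 : Sm R e (fun D => D.q111 - (D.q210 / D.b12 * D.b23 + D.q120 / D.b12 * D.b13 +
      D.q102 / D.b13 * D.b12)) := by
    refine ((b1i.mul b2i).sm (Sm.sub R_ge e_nonneg ((b3.mul b2i).sm a0) a1)).congr
      fun D => ?_
    have h4 := D.ne_of D.hb12'
    have h6 := D.ne_of D.hb13'
    field_simp
    ring
  refine ⟨h201, h021, ?_, h111⟩
  have t := Sm.add R_ge e_nonneg (Sm.sub R_ge e_nonneg a2 ((b2.mul b3i).sm a3))
    ((b1.mul b3).sm h111)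
  refine ((b1i.mul b1i).sm t).congr fun D => ?_
  have h4 := D.ne_of D.hb12'
  have h5 := D.ne_of D.hb23'
  have h6 := D.ne_of D.hb13'
  field_simp
  ring

/-- All small functions of a finite list are small with the same power. -/
theorem uniform {ι : Type} [Fintype ι] (x : ι → GDat → ℝ) (h : ∀ i, Sm R e (x i)) :
    ∃ n : ℕ, ∀ (D : GDat) (i : ι), |x i D| ≤ D.R ^ n * D.e := by
  classical
  choose n hn using h
  refine ⟨∑ i, n i, fun D i => (hn i D).trans ?_⟩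
  have h1 : (1 : ℝ) ≤ D.R := by linarith [D.R_ge]
  exact mul_le_mul_of_nonneg_right
    (pow_le_pow_right₀ h1 (Finset.single_le_sum (fun _ _ => Nat.zero_le _) (Finset.mem_univ i)))
    D.e_nonneg

end GDat

open GDat in
/-- **Row GLA.** A polynomial of degree at most two in each of the three variables, which has degree
at most two, up to `τ`, along four further directions on which the form
`B = b₁₂ x₁ x₂ + b₁₃ x₁ x₃ + b₂₃ x₂ x₃` is small, is `q₂ + (l₁ x₁ + l₂ x₂ + l₃ x₃) B + m B²`. -/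
theorem gla : ∃ n : ℕ, ∀ D : GDat, ∃ l₁ l₂ l₃ m : ℝ,
    (|l₁| ≤ D.R * D.E ∧ |l₂| ≤ D.R * D.E ∧ |l₃| ≤ D.R * D.E ∧ |m| ≤ D.R ^ 2 * D.E) ∧
    |D.q222| ≤ D.R ^ n * D.e ∧
    |D.q221| ≤ D.R ^ n * D.e ∧
    |D.q212| ≤ D.R ^ n * D.e ∧
    |D.q122| ≤ D.R ^ n * D.e ∧
    |D.q220 - m * D.b12 ^ 2| ≤ D.R ^ n * D.e ∧
    |D.q202 - m * D.b13 ^ 2| ≤ D.R ^ n * D.e ∧
    |D.q022 - m * D.b23 ^ 2| ≤ D.R ^ n * D.e ∧
    |D.q211 - 2 * m * D.b12 * D.b13| ≤ D.R ^ n * D.e ∧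
    |D.q121 - 2 * m * D.b12 * D.b23| ≤ D.R ^ n * D.e ∧
    |D.q112 - 2 * m * D.b13 * D.b23| ≤ D.R ^ n * D.e ∧
    |D.q210 - l₁ * D.b12| ≤ D.R ^ n * D.e ∧
    |D.q201 - l₁ * D.b13| ≤ D.R ^ n * D.e ∧
    |D.q120 - l₂ * D.b12| ≤ D.R ^ n * D.e ∧
    |D.q021 - l₂ * D.b23| ≤ D.R ^ n * D.e ∧
    |D.q102 - l₃ * D.b13| ≤ D.R ^ n * D.e ∧
    |D.q012 - l₃ * D.b23| ≤ D.R ^ n * D.e ∧
    |D.q111 - (l₁ * D.b23 + l₂ * D.b13 + l₃ * D.b12)| ≤ D.R ^ n * D.e := by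
  obtain ⟨g1, g2, g3⟩ := deg5
  obtain ⟨f1, f2, f3, f4, f5⟩ := deg4
  obtain ⟨k1, k2, k3, k4⟩ := deg3
  have z : Sm R e (fun _ => 0) := ⟨0, fun D => by
    rw [abs_zero, pow_zero, one_mul]
    exact D.e_nonneg⟩
  obtain ⟨n, hn⟩ := uniform ![q222, q221, q212, q122,
    (fun D => D.q202 - D.q220 / D.b12 ^ 2 * D.b13 ^ 2),
    (fun D => D.q022 - D.q220 / D.b12 ^ 2 * D.b23 ^ 2),
    (fun D => D.q211 - 2 * (D.q220 / D.b12 ^ 2) * D.b12 * D.b13),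
    (fun D => D.q121 - 2 * (D.q220 / D.b12 ^ 2) * D.b12 * D.b23),
    (fun D => D.q112 - 2 * (D.q220 / D.b12 ^ 2) * D.b13 * D.b23),
    (fun D => D.q201 - D.q210 / D.b12 * D.b13),
    (fun D => D.q021 - D.q120 / D.b12 * D.b23),
    (fun D => D.q012 - D.q102 / D.b13 * D.b23),
    (fun D => D.q111 - (D.q210 / D.b12 * D.b23 + D.q120 / D.b12 * D.b13 +
      D.q102 / D.b13 * D.b12)), (fun _ => 0)] (by
    intro i
    fin_cases i
    · exact deg6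
    · exact g2
    · exact g3
    · exact g1
    · exact f1
    · exact f2
    · exact f3
    · exact f4
    · exact f5
    · exact k1
    · exact k2
    · exact k3
    · exact k4
    · exact z)
  refine ⟨n, fun D => ⟨D.q210 / D.b12, D.q120 / D.b12, D.q102 / D.b13, D.q220 / D.b12 ^ 2,
    ⟨?_, ?_, ?_, ?_⟩, hn D 0, hn D 1, hn D 2, hn D 3, ?_, hn D 4, hn D 5, hn D 6, hn D 7, hn D 8,
    ?_, hn D 9, ?_, hn D 10, ?_, hn D 11, hn D 12⟩⟩
  · rw [div_eq_inv_mul, abs_mul]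
    have h := D.inv_le D.hb12'
    rw [pow_one] at h
    exact mul_le_mul h D.hq210 (abs_nonneg _) ((abs_nonneg _).trans h)
  · rw [div_eq_inv_mul, abs_mul]
    have h := D.inv_le D.hb12'
    rw [pow_one] at h
    exact mul_le_mul h D.hq120 (abs_nonneg _) ((abs_nonneg _).trans h)
  · rw [div_eq_inv_mul, abs_mul]
    have h := D.inv_le D.hb13'
    rw [pow_one] at h
    exact mul_le_mul h D.hq102 (abs_nonneg _) ((abs_nonneg _).trans h)
  · rw [div_eq_inv_mul, abs_mul, ← inv_pow, abs_pow]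
    have h := D.inv_le D.hb12'
    rw [pow_one] at h
    exact mul_le_mul (pow_le_pow_left₀ (abs_nonneg _) h 2) D.hq220 (abs_nonneg _)
      (pow_nonneg ((abs_nonneg _).trans h) _)
  · have e1 : D.q220 - D.q220 / D.b12 ^ 2 * D.b12 ^ 2 = 0 := by
      have h4 := D.ne_of D.hb12'
      field_simp
      ring
    rw [e1]
    exact hn D 13
  · have e1 : D.q210 - D.q210 / D.b12 * D.b12 = 0 := by
      have h4 := D.ne_of D.hb12'
      field_simp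
      ring
    rw [e1]
    exact hn D 13
  · have e1 : D.q120 - D.q120 / D.b12 * D.b12 = 0 := by
      have h4 := D.ne_of D.hb12'
      field_simp
      ring
    rw [e1]
    exact hn D 13
  · have e1 : D.q102 - D.q102 / D.b13 * D.b13 = 0 := by
      have h4 := D.ne_of D.hb13'
      field_simp
      ring
    rw [e1]
    exact hn D 13

end Pool.QQ
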