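import Pool.Agent.H9.K2.Stmts2
import Pool.Agent.H32.Dense.Pair

/-!
# Crossing of two labels: the entropic part (row XSH)

`β` is a label at the first time, together with a ball at the second time; `b` is a label at the
second time. If the position `y` inside the ball is full given `β`, and loses `j` given `b` (the two
sheets cross along a thin set), then the label `b` has entropy at least `j` given `β`; since `b` is
visible and its sheet is full, a copy of the position, conditionally independent given `b`, fills
`j` more rows than there are below the sheet of `b`: but it has to stay close to the sheet of `β`.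
-/

set_option autoImplicit false

namespace Pool.QQ

open Finset Real
open Pool.Agent.H49.Ent Pool.Agent.H32.Dense Pool.STK Pool.KA

variable {Ω B B' Y S W N : Type} [Fintype Ω]

/-- The label `b` has entropy at least `j`, given `β`. -/
theorem label_ge {p : Ω → ℝ} (hp : ∀ ω, 0 ≤ p ω) (β : Ω → B) (b : Ω → B') (y : Ω → Y)
    {h j d C : ℝ} (h1 : h - d ≤ CH p y β) (h2 : CH p y (fun ω => (b ω, β ω)) ≤ h - j + C) :
    j - d - C ≤ CH p b β := by
  have h3 := CH_bayes hp y b β
  have h4 := CH_nonneg hp b (fun ω => (y ω, β ω))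
  linarith

/-- **Row XSH.** Entropic part of the crossing lemma for two labels. -/
theorem xsh (hC : CPYStmt) {p : Ω → ℝ} (hp : IsLaw p) (β : Ω → B) (b : Ω → B') (y : Ω → Y)
    (X : Ω → S) (Wp : S → W) (Nc : S → N) {h j d C hW hN hN' v : ℝ}
    (h1 : h - d ≤ CH p y β) (h2 : CH p y (fun ω => (b ω, β ω)) ≤ h - j + C)
    (hv : CH p b X ≤ v) (hf : hW + hN' - d ≤ CH p X b)
    (hWc : CH (cpy p b) (fun w => Wp (X w.1)) (fun w => β w.2) ≤ hW)
    (hNc : CH (cpy p b) (fun w => Nc (X w.1)) (fun w => (Wp (X w.1), β w.2)) ≤ C)
    (hNN : CH p X (fun ω => (Nc (X ω), Wp (X ω))) ≤ hN) :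
    hN' + j ≤ hN + 2 * d + 2 * C + v := by
  obtain ⟨c1, c2, c3, c4, c5, c6⟩ := hC Ω B' p hp b
  set q := cpy p b with hq
  have hq0 : ∀ w, 0 ≤ q w := c1.nonneg
  -- the copy is full given `β` and the label
  have hb : j - d - C ≤ CH p b β := label_ge hp.nonneg β b y h1 h2
  have hb' : CH q (fun w => b w.1) (fun w => β w.2) = CH p b β := by
    have e1 : CH q (fun w => b w.1) (fun w => β w.2) = CH q (fun w => b w.2) (fun w => β w.2) := by
      refine CH_congr hq0 ?_ ?_ ?_ ?_
      · intro w w' hw hw' e
        have h5 := (c5 w hw).2.2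
        have h6 := (c5 w' hw').2.2
        simp only [Prod.mk.injEq] at e
        change b w.2 = b w'.2
        rw [← h5, ← h6]
        exact e.1
      · intro w w' hw hw' e
        have h5 := (c5 w hw).2.2
        have h6 := (c5 w' hw').2.2
        simp only [Prod.mk.injEq] at e
        change b w.1 = b w'.1
        rw [h5, h6]
        exact e.1
      · intro w w' _ _ e
        exact e
      · intro w w' _ _ e
        exact e
    rw [e1]
    exact c3.CH b β
  have hX : CH q (fun w => X w.1) (fun w => (β w.2, b w.1)) = CH p X b := c6 _ _ X β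
  -- visibility in the copy
  have hv' : CH q (fun w => b w.1) (fun w => (X w.1, β w.2)) ≤ v := by
    refine (CH_mono_cond hq0 (W := fun w => X w.1) ?_).trans ?_
    · intro w w' _ _ e
      simp only [Prod.mk.injEq] at e
      exact e.1
    · rw [c2.CH b X]
      exact hv
  have g1 : CH q (fun w => X w.1) (fun w => β w.2) ≥ CH p b β + CH p X b - v := by
    have e1 := CH_bayes hq0 (fun w : Ω × Ω => X w.1) (fun w => b w.1) (fun w => β w.2)
    have e2 : CH q (fun w => X w.1) (fun w => (b w.1, β w.2)) =
        CH q (fun w => X w.1) (fun w => (β w.2, b w.1)) := by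
      refine CH_congr hq0 ?_ ?_ ?_ ?_ <;>
      · intro w w' _ _ e
        simp only [Prod.mk.injEq] at e ⊢
        tauto
    rw [e2, hX] at e1
    rw [hb'] at e1
    linarith
  -- upper bound
  have g2 : CH q (fun w => X w.1) (fun w => β w.2) ≤ hW + C + hN := by
    have e1 := CH_le_add hq0 (fun w : Ω × Ω => X w.1) (fun w => Wp (X w.1)) (fun w => β w.2)
    have e2 := CH_le_add hq0 (fun w : Ω × Ω => X w.1) (fun w => Nc (X w.1))
      (fun w => (Wp (X w.1), β w.2))
    have e3 : CH q (fun w => X w.1) (fun w => (Nc (X w.1), (Wp (X w.1), β w.2))) ≤ hN := by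
      refine (CH_mono_cond hq0 (W := fun w => (Nc (X w.1), Wp (X w.1))) ?_).trans ?_
      · intro w w' _ _ e
        simp only [Prod.mk.injEq] at e ⊢
        tauto
      · rw [c2.CH X (fun ω => (Nc (X ω), Wp (X ω)))]
        exact hNN
    linarith
  linarith

end Pool.QQ
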